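import Pool.Agent.Results.MP_6c10c0_co.NineVertexGraph

set_option autoImplicit false

/-!
# All graphs of minimum degree more than `6/7` of the order lack the Ramsey repeated degree property

We use the colouring of the starting file `NineVertexGraph`.  If `x`, `y` are two vertices of the
same degree, then `x y` is red, the common red neighbours of `x` and `y` lie outside block `0`,
where all red cliques have at most seven vertices, and the common blue neighbours contain no blue
triangle.  So no monochromatic copy of a graph in which any two distinct vertices have six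
pairwise adjacent common neighbours contains `x` and `y`.
-/

namespace Pool.Agent.Results.MP_6c10c0_co.DenseGraphsFail

open Finset
open Pool.Agent.Results.MP_6c10c0_co.NineVertexGraph

/-- Any two distinct vertices of `G` have six pairwise adjacent common neighbours. -/
def SixCommon {V : Type} (G : SimpleGraph V) : Prop :=
  ∀ u v : V, u ≠ v → ∃ Q : Finset V, Q.card = 6 ∧
    (∀ a ∈ Q, G.Adj a u ∧ G.Adj a v) ∧ ∀ a ∈ Q, ∀ b ∈ Q, a ≠ b → G.Adj a b

lemma same_M (p q : Fin 10) (h : same p q) : M p q = 1 := by
  revert p q; decide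

/-- No red copy with two vertices of equal degree. -/
lemma no_red' {V : Type} (G : SimpleGraph V) (hG : SixCommon G) (w : ℕ)
    (f : V → Fin 10 × Fin w) (hinj : Function.Injective f)
    (hf : ∀ a b, G.Adj a b → (R w).Adj (f a) (f b)) (u v : V) (huv : u ≠ v)
    (hs : same (f u).1 (f v).1) : False := by
  classical
  obtain ⟨Q, hQ, hadj, hcl⟩ := hG u v huv
  have hne := same_ne _ _ hs
  have h0 : ∀ a ∈ Q, (f a).1 ≠ 0 := by
    intro a ha hz
    exact not_both_red w _ _ _ hs hz (hf _ _ (hadj a ha).1) (hf _ _ (hadj a ha).2)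
  have huQ : u ∉ Q := fun h => (hadj u h).1.ne rfl
  have hvQ : v ∉ Q := fun h => (hadj v h).2.ne rfl
  have hvT : u ∉ insert v Q := by
    rw [Finset.mem_insert]
    exact fun h => h.elim huv huQ
  have hcard : (insert u (insert v Q)).card = 8 := by
    rw [Finset.card_insert_of_notMem hvT, Finset.card_insert_of_notMem hvQ, hQ]
  have hred : (R w).Adj (f u) (f v) := by
    rw [R_adj]
    refine ⟨fun h => huv (hinj h), ?_⟩
    rw [same_M _ _ hs]
    exact Or.inl rfl
  have hT : ∀ a ∈ insert u (insert v Q), (f a).1 ≠ 0 := by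
    intro a ha
    rw [Finset.mem_insert, Finset.mem_insert] at ha
    rcases ha with rfl | rfl | ha
    · exact hne.1
    · exact hne.2
    · exact h0 a ha
  have hTadj : ∀ a ∈ insert u (insert v Q), ∀ b ∈ insert u (insert v Q), a ≠ b →
      (R w).Adj (f a) (f b) := by
    intro a ha b hb hab
    rw [Finset.mem_insert, Finset.mem_insert] at ha hb
    rcases ha with rfl | rfl | ha <;> rcases hb with rfl | rfl | hb
    · exact absurd rfl hab
    · exact hred
    · exact (hf _ _ (hadj b hb).1).symm
    · exact hred.symm
    · exact absurd rfl hab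
    · exact (hf _ _ (hadj b hb).2).symm
    · exact hf _ _ (hadj a ha).1
    · exact hf _ _ (hadj a ha).2
    · exact hf _ _ (hcl a ha b hb hab)
  obtain ⟨a, ha, b, hb, hab, h⟩ := Finset.exists_ne_map_eq_of_card_lt_of_maps_to
    (s := insert u (insert v Q)) (t := (univ : Finset (Fin 7))) (f := fun a => lab (f a).1)
    (by rw [hcard]; simp) (fun _ _ => Finset.mem_coe.2 (Finset.mem_univ _))
  have h1 := lab_spec _ _ (hT a ha) (hT b hb) h
  have h2 := (hTadj a ha b hb hab).2
  rw [h1] at h2
  unfold rel at h2
  omega

/-- No blue copy with two vertices of equal degree. -/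
lemma no_blue' {V : Type} (G : SimpleGraph V) (hG : SixCommon G) (w : ℕ)
    (f : V → Fin 10 × Fin w) (hinj : Function.Injective f)
    (hf : ∀ a b, G.Adj a b → (R w)ᶜ.Adj (f a) (f b)) (u v : V) (hne : u ≠ v)
    (hs : same (f u).1 (f v).1) (huv : (f u).2 = (f v).2) : False := by
  classical
  obtain ⟨Q, hQ, hadj, hcl⟩ := hG u v hne
  obtain ⟨a, ha, b, hb, hab, h⟩ := Finset.exists_ne_map_eq_of_card_lt_of_maps_to
    (s := Q) (t := (univ : Finset Bool)) (f := fun a => decide ((f a).1 = 0))
    (by rw [hQ]; simp) (fun _ _ => Finset.mem_coe.2 (Finset.mem_univ _))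
  have hA := both_blue w (f u) (f v) (f a) hs huv (hf _ _ (hadj a ha).1) (hf _ _ (hadj a ha).2)
  have hB := both_blue w (f u) (f v) (f b) hs huv (hf _ _ (hadj b hb).1) (hf _ _ (hadj b hb).2)
  have hAB := hf _ _ (hcl a ha b hb hab)
  rw [SimpleGraph.compl_adj, R_adj] at hAB
  by_cases h0 : (f a).1 = 0
  · have h0' : (f b).1 = 0 := by simpa [h0] using h
    apply hAB.2
    refine ⟨hAB.1, ?_⟩
    rw [h0, h0']
    exact Or.inl rfl
  · have h0' : ¬ (f b).1 = 0 := by simpa [h0] using h
    have h3 := hA.resolve_left h0
    have h4 := hB.resolve_left h0'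
    exact hab (hinj (h3.trans h4.symm))

/-- The general criterion. -/
theorem fails_of_sixCommon {V : Type} (G : SimpleGraph V) (hG : SixCommon G) :
    ¬ HasRamseyRepeatedDegreeProperty G := by
  rintro ⟨N, hN⟩
  set w := N + 1 with hw
  let e : Fin 10 × Fin w ≃ Fin (10 * w) := finProdFinEquiv
  obtain ⟨C, hC, f, u, v, huv, hdeg⟩ := hN (10 * w) (by omega) ((R w).comap e.symm)
  have hncard : ∀ a : Fin (10 * w), (((R w).comap e.symm).neighborSet a).ncard
      = ((R w).neighborSet (e.symm a)).ncard := by
    intro a
    have : ((R w).comap e.symm).neighborSet a = e '' ((R w).neighborSet (e.symm a)) := by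
      ext b
      simp only [SimpleGraph.mem_neighborSet, SimpleGraph.comap_adj, Set.mem_image]
      constructor
      · intro h; exact ⟨e.symm b, h, by simp⟩
      · rintro ⟨c, hc, rfl⟩; simpa using hc
    rw [this, Set.ncard_image_of_injective _ e.injective]
  rw [hncard, hncard] at hdeg
  have hinj : Function.Injective (fun a => e.symm (f a)) :=
    e.symm.injective.comp f.injective
  obtain ⟨hs, hi⟩ := same_of_deg w (e.symm (f u)) (e.symm (f v))
    (fun h => huv (hinj h)) hdeg
  rcases hC with rfl | rfl
  · refine no_red' G hG w (fun a => e.symm (f a)) hinj ?_ u v huv hs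
    intro a b hab
    exact f.toHom.map_adj hab
  · refine no_blue' G hG w (fun a => e.symm (f a)) hinj ?_ u v huv hs hi
    intro a b hab
    have := f.toHom.map_adj hab
    rw [SimpleGraph.compl_adj, SimpleGraph.comap_adj] at this
    rw [SimpleGraph.compl_adj]
    exact ⟨fun h => this.1 (e.symm.injective h), this.2⟩

/-! ### Minimum degree -/

theorem sixCommon_of_minDegree {V : Type} [Fintype V] (G : SimpleGraph V) [DecidableRel G.Adj]
    (h : 6 * Fintype.card V < 7 * G.minDegree) : SixCommon G := by
  classical
  intro u v _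
  have step : ∀ j : ℕ, j ≤ 6 → ∃ Q : Finset V, Q.card = j ∧
      (∀ a ∈ Q, G.Adj a u ∧ G.Adj a v) ∧ ∀ a ∈ Q, ∀ b ∈ Q, a ≠ b → G.Adj a b := by
    intro j
    induction j with
    | zero => exact fun _ => ⟨∅, by simp, by simp, by simp⟩
    | succ j ih =>
        intro hj
        obtain ⟨Q, hQ, h1, h2⟩ := ih (by omega)
        -- the union of the sets of non-neighbours is not everything
        have hnb : ∀ x : V, (univ.filter (fun y => ¬ G.Adj x y)).card ≤
            Fintype.card V - G.minDegree := by
          intro x
          have h3 := Finset.card_filter_add_card_filter_not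
            (s := (univ : Finset V)) (fun y => G.Adj x y)
          have h4 : (univ.filter (fun y => G.Adj x y)).card = G.degree x := by
            rw [← SimpleGraph.card_neighborFinset_eq_degree, SimpleGraph.neighborFinset_eq_filter]
          have h5 := G.minDegree_le_degree x
          rw [Finset.card_univ, h4] at h3
          omega
        have hB : ((insert u (insert v Q)).biUnion
            (fun x => univ.filter (fun y => ¬ G.Adj x y))).card < Fintype.card V := by
          have h3 := Finset.card_biUnion_le (s := insert u (insert v Q))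
            (t := fun x => univ.filter (fun y => ¬ G.Adj x y))
          have h4 : ∑ x ∈ insert u (insert v Q), (univ.filter (fun y => ¬ G.Adj x y)).card ≤
              (insert u (insert v Q)).card * (Fintype.card V - G.minDegree) := by
            rw [← smul_eq_mul]
            exact Finset.sum_le_card_nsmul _ _ _ (fun x _ => hnb x)
          have h5 : (insert u (insert v Q)).card ≤ 7 := by
            have h6 := Finset.card_insert_le u (insert v Q)
            have h7 := Finset.card_insert_le v Q
            omega
          have h8 := Nat.mul_le_mul_right (Fintype.card V - G.minDegree) h5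
          have hpos : 0 < Fintype.card V := Fintype.card_pos_iff.2 ⟨u⟩
          have h9 : 7 * (Fintype.card V - G.minDegree) < Fintype.card V := by omega
          omega
        obtain ⟨z, hz⟩ : ∃ z : V, z ∉ (insert u (insert v Q)).biUnion
            (fun x => univ.filter (fun y => ¬ G.Adj x y)) := by
          by_contra hcon
          push Not at hcon
          have h3 := Finset.card_le_card (fun z (_ : z ∈ (univ : Finset V)) => hcon z)
          rw [Finset.card_univ] at h3
          omega
        simp only [Finset.mem_biUnion, Finset.mem_filter, Finset.mem_univ, true_and, not_exists,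
          not_and, not_not, Finset.mem_insert] at hz
        have hzu := hz u (Or.inl rfl)
        have hzv := hz v (Or.inr (Or.inl rfl))
        have hzQ : ∀ a ∈ Q, G.Adj a z := fun a ha => hz a (Or.inr (Or.inr ha))
        have hzn : z ∉ Q := fun h3 => (hzQ z h3).ne rfl
        refine ⟨insert z Q, by rw [Finset.card_insert_of_notMem hzn, hQ], ?_, ?_⟩
        · intro a ha
          rw [Finset.mem_insert] at ha
          rcases ha with rfl | ha
          · exact ⟨hzu.symm, hzv.symm⟩
          · exact h1 a ha
        · intro a ha b hb hab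
          rw [Finset.mem_insert] at ha hb
          rcases ha with rfl | ha <;> rcases hb with rfl | hb
          · exact absurd rfl hab
          · exact (hzQ b hb).symm
          · exact hzQ a ha
          · exact h2 a ha b hb hab
  exact step 6 le_rfl

/-! ### Complete graphs minus an edge, complete multipartite graphs -/

theorem sixCommon_minus_edge (m : ℕ) (hm : 9 ≤ m) (c d : Fin m) (hcd : c ≠ d) :
    SixCommon ((⊤ : SimpleGraph (Fin m)).deleteEdges {s(c, d)}) := by
  classical
  intro u v _
  set x : Fin m := if u = c ∨ v = c then d else c with hx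
  have hle : 6 ≤ (univ \ ({u, v, x} : Finset (Fin m))).card := by
    have h1 := Finset.le_card_sdiff ({u, v, x} : Finset (Fin m)) univ
    have h2 : ({u, v, x} : Finset (Fin m)).card ≤ 3 := Finset.card_le_three
    rw [Finset.card_univ, Fintype.card_fin] at h1
    omega
  obtain ⟨Q, hQs, hQ⟩ := Finset.exists_subset_card_eq hle
  have hadj : ∀ a b : Fin m, ((⊤ : SimpleGraph (Fin m)).deleteEdges {s(c, d)}).Adj a b ↔
      a ≠ b ∧ ¬ (a = c ∧ b = d) ∧ ¬ (a = d ∧ b = c) := by
    intro a b
    rw [SimpleGraph.deleteEdges_adj, SimpleGraph.top_adj]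
    simp only [Set.mem_singleton_iff, Sym2.eq_iff]
    tauto
  have hmem : ∀ a ∈ Q, a ≠ u ∧ a ≠ v ∧ a ≠ x := by
    intro a ha
    have := hQs ha
    simpa [Finset.mem_sdiff, Finset.mem_insert, not_or] using this
  have hxx : (u = c ∨ v = c) ∧ x = d ∨ (u ≠ c ∧ v ≠ c) ∧ x = c := by
    by_cases h : u = c ∨ v = c
    · left
      exact ⟨h, by rw [hx, if_pos h]⟩
    · right
      refine ⟨by tauto, by rw [hx, if_neg h]⟩
  refine ⟨Q, hQ, ?_, ?_⟩
  · intro a ha
    obtain ⟨h1, h2, h3⟩ := hmem a ha
    rw [hadj, hadj]
    rcases hxx with ⟨h4, h5⟩ | ⟨h4, h5⟩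
    · rw [h5] at h3
      refine ⟨⟨h1, ?_, ?_⟩, ⟨h2, ?_, ?_⟩⟩
      · rintro ⟨rfl, rfl⟩
        rcases h4 with h4 | h4
        · exact hcd h4.symm
        · exact h2 h4.symm
      · exact fun h => h3 h.1
      · rintro ⟨rfl, rfl⟩
        rcases h4 with h4 | h4
        · exact h1 h4.symm
        · exact hcd h4.symm
      · exact fun h => h3 h.1
    · rw [h5] at h3
      exact ⟨⟨h1, fun h => h3 h.1, fun h => h4.1 h.2⟩, ⟨h2, fun h => h3 h.1, fun h => h4.2 h.2⟩⟩
  · intro a ha b hb hab
    obtain ⟨-, -, h3⟩ := hmem a ha
    obtain ⟨-, -, h3'⟩ := hmem b hb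
    rw [hadj]
    rcases hxx with ⟨-, h5⟩ | ⟨-, h5⟩
    · rw [h5] at h3 h3'
      exact ⟨hab, fun h => h3' h.2, fun h => h3 h.1⟩
    · rw [h5] at h3 h3'
      exact ⟨hab, fun h => h3 h.1, fun h => h3' h.2⟩

theorem sixCommon_multipartite (m : ℕ) (hm : 8 ≤ m) (P : Fin m → Type)
    (hP : ∀ i, Nonempty (P i)) : SixCommon (SimpleGraph.completeMultipartiteGraph P) := by
  classical
  intro u v _
  have hle : 6 ≤ (univ \ ({u.1, v.1} : Finset (Fin m))).card := by
    have h1 := Finset.le_card_sdiff ({u.1, v.1} : Finset (Fin m)) univ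
    have h2 : ({u.1, v.1} : Finset (Fin m)).card ≤ 2 := Finset.card_le_two
    rw [Finset.card_univ, Fintype.card_fin] at h1
    omega
  obtain ⟨Q, hQs, hQ⟩ := Finset.exists_subset_card_eq hle
  let g : Fin m → (Σ i, P i) := fun i => ⟨i, (hP i).some⟩
  have hg : Function.Injective g := fun i j h => congrArg Sigma.fst h
  refine ⟨Q.image g, by rw [Finset.card_image_of_injective _ hg, hQ], ?_, ?_⟩
  · intro a ha
    obtain ⟨i, hi, rfl⟩ := Finset.mem_image.1 ha
    have h1 := hQs hi
    simp only [Finset.mem_sdiff, Finset.mem_univ, true_and, Finset.mem_insert,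
      Finset.mem_singleton, not_or] at h1
    exact ⟨h1.1, h1.2⟩
  · intro a ha b hb hab
    obtain ⟨i, hi, rfl⟩ := Finset.mem_image.1 ha
    obtain ⟨j, hj, rfl⟩ := Finset.mem_image.1 hb
    change i ≠ j
    exact fun h => hab (by rw [h])

/-- **Theorem.** The Ramsey repeated degree property fails
(1) for every finite graph in which any two distinct vertices have six pairwise adjacent common
neighbours; in particular
(2) for every graph whose minimum degree is larger than `6/7` of the number of vertices,
(3) for every complete graph on at least nine vertices minus one edge,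
(4) for every complete multipartite graph with at least eight (finite, nonempty) parts. -/
theorem result :
    (∀ (V : Type) [Fintype V] (G : SimpleGraph V), SixCommon G →
      ¬ HasRamseyRepeatedDegreeProperty G) ∧
    (∀ (V : Type) [Fintype V] (G : SimpleGraph V) [DecidableRel G.Adj],
      6 * Fintype.card V < 7 * G.minDegree → ¬ HasRamseyRepeatedDegreeProperty G) ∧
    (∀ (m : ℕ) (_ : 9 ≤ m) (c d : Fin m), c ≠ d →
      (∀ k : ℕ, ¬ Nonempty ((⊤ : SimpleGraph (Fin m)).deleteEdges {s(c, d)} ≃g
        (⊤ : SimpleGraph (Fin k)))) ∧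
      ¬ HasRamseyRepeatedDegreeProperty ((⊤ : SimpleGraph (Fin m)).deleteEdges {s(c, d)})) ∧
    (∀ (m : ℕ) (_ : 8 ≤ m) (P : Fin m → Type) (_ : ∀ i, Finite (P i))
      (_ : ∀ i, Nonempty (P i)),
      ¬ HasRamseyRepeatedDegreeProperty (SimpleGraph.completeMultipartiteGraph P)) := by
  refine ⟨fun V _ G h => fails_of_sixCommon G h,
    fun V _ G _ h => fails_of_sixCommon G (sixCommon_of_minDegree G h), ?_,
    fun m hm P _ hP => fails_of_sixCommon _ (sixCommon_multipartite m hm P hP)⟩
  intro m hm c d hcd
  refine ⟨?_, fails_of_sixCommon _ (sixCommon_minus_edge m hm c d hcd)⟩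
  rintro k ⟨φ⟩
  have h1 : ((⊤ : SimpleGraph (Fin m)).deleteEdges {s(c, d)}).Adj c d := by
    rw [← φ.map_adj_iff, SimpleGraph.top_adj]
    exact fun h => hcd (φ.injective h)
  rw [SimpleGraph.deleteEdges_adj] at h1
  exact h1.2 rfl

end Pool.Agent.Results.MP_6c10c0_co.DenseGraphsFail
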